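import Mathlib

namespace Pool.Agent.MP_170294_an.H84

open Set Polynomial

/-- an alternating sequence of length `m` between the sets `A` and `B` -/
def AltSeq (A B : Set ℝ) (m : ℕ) (z : ℕ → ℝ) : Prop :=
  (∀ i, i + 1 < m → z i < z (i + 1)) ∧
  (∀ i, i < m → z i ∈ A ∪ B) ∧
  (∀ i, i + 1 < m → (z i ∈ A ↔ z (i + 1) ∈ B) ∧ (z i ∈ B ↔ z (i + 1) ∈ A))

lemma AltSeq.symm {A B : Set ℝ} {m : ℕ} {z : ℕ → ℝ} (h : AltSeq A B m z) : AltSeq B A m z :=
  ⟨h.1, fun i hi => by rw [union_comm]; exact h.2.1 i hi, fun i hi => (h.2.2 i hi).symm⟩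

lemma AltSeq.lt_of_lt {A B : Set ℝ} {m : ℕ} {z : ℕ → ℝ} (h : AltSeq A B m z) {i j : ℕ}
    (hij : i < j) (hj : j < m) : z i < z j := by
  induction j with
  | zero => omega
  | succ j ih =>
    rcases Nat.lt_succ_iff_lt_or_eq.mp hij with h1 | h1
    · exact (ih h1 (by omega)).trans (h.1 j hj)
    · subst h1; exact h.1 i hj

lemma sign_poly_aux (ψ : ℝ → ℝ) (S : Set ℝ) (hψ : StrictMonoOn ψ S) (m : ℕ)
    (ih : ∀ A B : Set ℝ, IsCompact A → IsCompact B → A ⊆ S → B ⊆ S → Disjoint A B →
      (¬ ∃ z, AltSeq A B (m + 2) z) →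
      ∃ h : ℝ[X], h.natDegree ≤ m ∧ (∀ x ∈ A, 0 < h.eval (ψ x)) ∧ (∀ x ∈ B, h.eval (ψ x) < 0))
    (A B : Set ℝ) (hA : IsCompact A) (hB : IsCompact B) (hAS : A ⊆ S) (hBS : B ⊆ S)
    (hd : Disjoint A B) (hno : ¬ ∃ z, AltSeq A B (m + 3) z)
    (b : ℝ) (hb : b ∈ B) (hbmax : ∀ y ∈ B, y ≤ b) (a0 : ℝ) (ha0 : a0 ∈ A) (hba0 : b ≤ a0) :
    ∃ h : ℝ[X], h.natDegree ≤ m + 1 ∧ (∀ x ∈ A, 0 < h.eval (ψ x)) ∧
      (∀ x ∈ B, h.eval (ψ x) < 0) := by
  have hA2 : IsCompact (A ∩ Ici b) := hA.inter_right isClosed_Ici
  obtain ⟨a, ⟨haA, hab⟩, hamin⟩ := hA2.exists_isLeast ⟨a0, ha0, hba0⟩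
  have hne : ∀ x ∈ A, x ≠ b := fun x hx e => (Set.disjoint_left.mp hd hx) (e ▸ hb)
  have hba : b < a := lt_of_le_of_ne hab (hne a haA).symm
  have hlow : ∀ x ∈ A, x < a → x < b := by
    intro x hx hxa
    by_contra hc
    exact absurd (hamin ⟨hx, not_lt.mp hc⟩) (not_le.mpr hxa)
  set A' : Set ℝ := A ∩ Iic b with hA'
  set B' : Set ℝ := B ∪ (A ∩ Ici a) with hB'
  have hA'c : IsCompact A' := hA.inter_right isClosed_Iic
  have hB'c : IsCompact B' := hB.union (hA.inter_right isClosed_Ici)
  have hA'lt : ∀ x ∈ A', x < b := fun x hx => lt_of_le_of_ne hx.2 (hne x hx.1)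
  have hd' : Disjoint A' B' := by
    rw [Set.disjoint_left]
    rintro x hx (hx' | hx')
    · exact Set.disjoint_left.mp hd hx.1 hx'
    · exact absurd (lt_of_lt_of_le ((hA'lt x hx).trans hba) hx'.2) (lt_irrefl _)
  have hno' : ¬ ∃ z, AltSeq A' B' (m + 2) z := by
    rintro ⟨z, hz⟩
    apply hno
    have hAB : ∀ x ∈ A, x ∉ B := fun x hx => Set.disjoint_left.mp hd hx
    have hBA : ∀ x ∈ B, x ∉ A := fun x hx => Set.disjoint_right.mp hd hx
    have hA'B' : ∀ x ∈ A', x ∉ B' := fun x hx => Set.disjoint_left.mp hd' hx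
    -- every element of the sequence before the last is below b
    have hlt : ∀ i, i < m + 1 → z i < b := by
      intro i hi
      rcases hz.2.1 i (by omega) with h1 | h1
      · exact hA'lt _ h1
      · have h2 : z (i + 1) ∈ A' := (hz.2.2 i (by omega)).2.mp h1
        exact (hz.1 i (by omega)).trans (hA'lt _ h2)
    have hmemA : ∀ i, i < m + 2 → z i < b → (z i ∈ A ↔ z i ∈ A') :=
      fun i _ h => ⟨fun h1 => ⟨h1, h.le⟩, fun h1 => h1.1⟩
    have hmemB : ∀ i, i < m + 2 → z i < b → (z i ∈ B ↔ z i ∈ B') := by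
      intro i _ h
      refine ⟨fun h1 => Or.inl h1, fun h1 => ?_⟩
      rcases h1 with h1 | h1
      · exact h1
      · exact absurd (lt_of_lt_of_le (h.trans hba) h1.2) (lt_irrefl _)
    by_cases hlast : z (m + 1) ∈ A'
    · -- append b
      have hlt' : ∀ i, i < m + 2 → z i < b := by
        intro i hi
        rcases Nat.lt_succ_iff_lt_or_eq.mp hi with h | h
        · exact hlt i h
        · rw [h]; exact hA'lt _ hlast
      refine ⟨fun i => if i < m + 2 then z i else b, ?_, ?_, ?_⟩
      · intro i hi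
        by_cases h : i + 1 < m + 2
        · simp only [h, show i < m + 2 by omega, if_true]; exact hz.1 i h
        · simp only [h, show i < m + 2 by omega, if_true, if_false]; exact hlt' i (by omega)
      · intro i hi
        by_cases h : i < m + 2
        · simp only [h, if_true]
          rcases hz.2.1 i h with h1 | h1
          · exact Or.inl h1.1
          · exact Or.inr ((hmemB i h (hlt' i h)).mpr h1)
        · simp only [h, if_false]; exact Or.inr hb
      · intro i hi
        by_cases h : i + 1 < m + 2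
        · simp only [h, show i < m + 2 by omega, if_true]
          rw [hmemA i (by omega) (hlt' i (by omega)), hmemB i (by omega) (hlt' i (by omega)),
            hmemA (i+1) h (hlt' _ h), hmemB (i+1) h (hlt' _ h)]
          exact hz.2.2 i h
        · simp only [h, show i < m + 2 by omega, if_true, if_false]
          have : i = m + 1 := by omega
          subst this
          refine ⟨⟨fun _ => hb, fun _ => hlast.1⟩, ⟨fun h1 => absurd h1 (hAB _ hlast.1),
            fun h1 => absurd h1 (hBA _ hb)⟩⟩
    · -- replace the last by b and append a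
      have hlastB : z (m + 1) ∈ B' := (hz.2.1 (m + 1) (by omega)).resolve_left hlast
      have hprev : z m ∈ A' := (hz.2.2 m (by omega)).1.mpr hlastB
      refine ⟨fun i => if i < m + 1 then z i else if i = m + 1 then b else a, ?_, ?_, ?_⟩
      · intro i hi
        by_cases h : i + 1 < m + 1
        · simp only [h, show i < m + 1 by omega, if_true]; exact hz.1 i (by omega)
        · by_cases h' : i = m
          · subst h'; simp only [lt_add_one, lt_irrefl, if_true, if_false]; exact hlt _ (by omega)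
          · have : i = m + 1 := by omega
            subst this
            simp only [lt_irrefl, if_true, if_false, h, show ¬ (m + 1 + 1 = m + 1) by omega]
            exact hba
      · intro i hi
        by_cases h : i < m + 1
        · simp only [h, if_true]
          rcases hz.2.1 i (by omega) with h1 | h1
          · exact Or.inl h1.1
          · exact Or.inr ((hmemB i (by omega) (hlt i h)).mpr h1)
        · by_cases h' : i = m + 1
          · simp only [h', lt_irrefl, if_true, if_false]; exact Or.inr hb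
          · simp only [h, h', if_false]; exact Or.inl haA
      · intro i hi
        by_cases h : i + 1 < m + 1
        · simp only [h, show i < m + 1 by omega, if_true]
          rw [hmemA i (by omega) (hlt i (by omega)), hmemB i (by omega) (hlt i (by omega)),
            hmemA (i+1) (by omega) (hlt _ h), hmemB (i+1) (by omega) (hlt _ h)]
          exact hz.2.2 i (by omega)
        · by_cases h' : i = m
          · subst h'; simp only [lt_add_one, lt_irrefl, if_true, if_false]
            refine ⟨⟨fun _ => hb, fun _ => hprev.1⟩, ⟨fun h1 => absurd h1 (hAB _ hprev.1),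
              fun h1 => absurd h1 (hBA _ hb)⟩⟩
          · have : i = m + 1 := by omega
            subst this
            simp only [lt_irrefl, if_true, if_false, h, show ¬ (m + 1 + 1 = m + 1) by omega]
            refine ⟨⟨fun h1 => absurd h1 (hBA _ hb), fun h1 => absurd h1 (hAB _ haA)⟩,
              ⟨fun _ => haA, fun _ => hb⟩⟩
  obtain ⟨h, hdeg, hpos, hneg⟩ := ih A' B' hA'c hB'c (fun x hx => hAS hx.1)
    (by rintro x (hx | hx); exacts [hBS hx, hAS hx.1]) hd' hno'
  have hψab : ψ b < ψ a := hψ (hBS hb) (hAS haA) hba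
  refine ⟨(C ((ψ a + ψ b) / 2) - X) * h, ?_, ?_, ?_⟩
  · refine natDegree_mul_le.trans ?_
    have : (C ((ψ a + ψ b) / 2) - X : ℝ[X]).natDegree ≤ 1 := by
      compute_degree
    omega
  · intro x hx
    simp only [eval_mul, eval_sub, eval_C, eval_X]
    by_cases hxa : x < a
    · have hxb := hlow x hx hxa
      have : ψ x < ψ b := hψ (hAS hx) (hBS hb) hxb
      exact mul_pos (by linarith) (hpos x ⟨hx, hxb.le⟩)
    · have : ψ a ≤ ψ x := hψ.monotoneOn (hAS haA) (hAS hx) (not_lt.mp hxa)
      exact mul_pos_of_neg_of_neg (by linarith) (hneg x (Or.inr ⟨hx, not_lt.mp hxa⟩))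
  · intro x hx
    simp only [eval_mul, eval_sub, eval_C, eval_X]
    have : ψ x ≤ ψ b := hψ.monotoneOn (hBS hx) (hBS hb) (hbmax x hx)
    exact mul_neg_of_pos_of_neg (by linarith) (hneg x (Or.inl hx))

/-- without a long alternation there is a polynomial separating the two sets by sign -/
lemma sign_poly (ψ : ℝ → ℝ) (S : Set ℝ) (hψ : StrictMonoOn ψ S) (m : ℕ) :
    ∀ A B : Set ℝ, IsCompact A → IsCompact B → A ⊆ S → B ⊆ S → Disjoint A B →
      (¬ ∃ z, AltSeq A B (m + 2) z) →
      ∃ h : ℝ[X], h.natDegree ≤ m ∧ (∀ x ∈ A, 0 < h.eval (ψ x)) ∧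
        (∀ x ∈ B, h.eval (ψ x) < 0) := by
  induction m with
  | zero =>
    intro A B _ _ _ _ hd hno
    have hAB : ∀ x ∈ A, x ∉ B := fun x hx => Set.disjoint_left.mp hd hx
    have hBA : ∀ x ∈ B, x ∉ A := fun x hx => Set.disjoint_right.mp hd hx
    rcases B.eq_empty_or_nonempty with rfl | ⟨b, hb⟩
    · exact ⟨1, by simp, by simp, by simp⟩
    rcases A.eq_empty_or_nonempty with rfl | ⟨a, ha⟩
    · exact ⟨-1, by simp, by simp, by simp⟩
    exfalso
    apply hno
    have hne : a ≠ b := fun e => hAB a ha (e ▸ hb)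
    rcases lt_or_gt_of_ne hne with h | h
    · refine ⟨fun i => if i = 0 then a else b, ?_, ?_, ?_⟩
      · intro i hi; have : i = 0 := by omega
        subst this; simpa using h
      · intro i _; by_cases h0 : i = 0 <;> simp [h0, ha, hb]
      · intro i hi; have : i = 0 := by omega
        subst this; simp [ha, hb, hAB a ha, hBA b hb]
    · refine ⟨fun i => if i = 0 then b else a, ?_, ?_, ?_⟩
      · intro i hi; have : i = 0 := by omega
        subst this; simpa using h
      · intro i _; by_cases h0 : i = 0 <;> simp [h0, ha, hb]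
      · intro i hi; have : i = 0 := by omega
        subst this; simp [ha, hb, hAB a ha, hBA b hb]
  | succ m ih =>
    intro A B hA hB hAS hBS hd hno
    rcases B.eq_empty_or_nonempty with rfl | hBne
    · exact ⟨1, by simp, by simp, by simp⟩
    rcases A.eq_empty_or_nonempty with rfl | hAne
    · exact ⟨-1, by simp, by simp, by simp⟩
    obtain ⟨b, hb, hbmax⟩ := hB.exists_isGreatest hBne
    obtain ⟨a, ha, hamax⟩ := hA.exists_isGreatest hAne
    rcases le_total b a with h | h
    · exact sign_poly_aux ψ S hψ m ih A B hA hB hAS hBS hd hno b hb hbmax a ha h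
    · obtain ⟨g, hg1, hg2, hg3⟩ := sign_poly_aux ψ S hψ m ih B A hB hA hBS hAS hd.symm
        (by rintro ⟨z, hz⟩; exact hno ⟨z, hz.symm⟩) a ha hamax b hb h
      refine ⟨-g, by simpa using hg1, ?_, ?_⟩
      · intro x hx; simpa using hg3 x hx
      · intro x hx; simpa using hg2 x hx

/-- weak alternation at `n+2` points forces a polynomial of degree at most `n` to vanish -/
lemma eq_zero_of_weak_alt (n : ℕ) (D : ℝ[X]) (hD : D.natDegree ≤ n) (y : ℕ → ℝ)
    (hy : ∀ i, i < n + 1 → y (i + 1) < y i)
    (hs : ∀ i, i < n + 2 → 0 ≤ (-1) ^ i * D.eval (y i)) : D = 0 := by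
  have hlt : ∀ i j, i < j → j < n + 2 → y j < y i := by
    intro i j hij hj
    induction j with
    | zero => omega
    | succ j ih =>
      rcases Nat.lt_succ_iff_lt_or_eq.mp hij with h1 | h1
      · exact (hy j (by omega)).trans (ih h1 (by omega))
      · subst h1; exact hy i (by omega)
  have hinj : Set.InjOn y (Finset.range (n + 2) : Finset ℕ) := by
    intro i hi j hj e
    simp only [Finset.coe_range, mem_Iio] at hi hj
    rcases lt_trichotomy i j with h | h | h
    · exact absurd e (hlt i j h hj).ne'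
    · exact h
    · exact absurd e (hlt j i h hi).ne
  have hdeg : D.degree < (Finset.range (n + 2)).card := by
    rw [Finset.card_range]
    exact lt_of_le_of_lt (degree_le_of_natDegree_le hD) (by norm_cast; omega)
  have hsum := Lagrange.coeff_eq_sum hinj hdeg
  rw [Finset.card_range, coeff_eq_zero_of_natDegree_lt (by omega)] at hsum
  have hprod : ∀ i, i < n + 2 →
      0 < (-1) ^ i * ∏ j ∈ (Finset.range (n + 2)).erase i, (y i - y j) := by
    intro i hi
    have h₁ : 0 < ∏ j ∈ Finset.range i, ((-1) * (y i - y j)) :=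
      Finset.prod_pos (fun j hj => mul_pos_of_neg_of_neg neg_one_lt_zero <| sub_neg.mpr <|
        hlt j i (Finset.mem_range.mp hj) hi)
    rw [Finset.prod_mul_distrib, Finset.prod_const, Finset.card_range] at h₁
    have h₂ : 0 < ∏ j ∈ Finset.Ioc i (n + 1), (y i - y j) :=
      Finset.prod_pos (fun j hj => sub_pos.mpr <|
        hlt i j (Finset.mem_Ioc.mp hj).1 (by have := (Finset.mem_Ioc.mp hj).2; omega))
    have union : (Finset.range (n + 2)).erase i = (Finset.range i) ∪ Finset.Ioc i (n + 1) := by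
      ext j; simp only [Finset.mem_erase, Finset.mem_range, Finset.mem_union, Finset.mem_Ioc]; omega
    have disj : Disjoint (Finset.range i) (Finset.Ioc i (n + 1)) := by
      rw [Finset.disjoint_left]; intro j hj hj'
      simp only [Finset.mem_range, Finset.mem_Ioc] at hj hj'; omega
    rw [union, Finset.prod_union disj, ← mul_assoc]
    exact mul_pos h₁ h₂
  have hterm : ∀ i ∈ Finset.range (n + 2),
      0 ≤ D.eval (y i) / ∏ j ∈ (Finset.range (n + 2)).erase i, (y i - y j) := by
    intro i hi
    have hi' := Finset.mem_range.mp hi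
    have h1 := hprod i hi'
    have h2 := hs i hi'
    have hne : ((-1 : ℝ)) ^ i ≠ 0 := pow_ne_zero _ (by norm_num)
    rw [← mul_div_mul_left _ _ hne]
    exact div_nonneg h2 h1.le
  have hz := (Finset.sum_eq_zero_iff_of_nonneg hterm).mp hsum.symm
  refine eq_zero_of_degree_lt_of_eval_index_eq_zero (Finset.range (n + 2)) hinj hdeg ?_
  intro i hi
  have h1 := hprod i (Finset.mem_range.mp hi)
  have h3 : ∏ j ∈ (Finset.range (n + 2)).erase i, (y i - y j) ≠ 0 := by
    intro e; rw [e] at h1; simp at h1
  exact (div_eq_zero_iff.mp (hz i hi)).resolve_right h3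

end Pool.Agent.MP_170294_an.H84
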