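import Pool.Agent.MP_170294_an.H84.Near
import Pool.Agent.MP_170294_an.H84.Alt

namespace Pool.Agent.MP_170294_an.H84

open Set Polynomial Filter Topology

/-- upper envelope -/
noncomputable def UU (r x : ℝ) : ℝ := min (x + r) 1 + r
/-- lower envelope -/
noncomputable def LL (r x : ℝ) : ℝ := max (x - r) 0 - r

/-- the conditions on an even function to be within `r` of the absolute value -/
def Band (r : ℝ) (p : ℝ → ℝ) : Prop :=
  (∀ x ∈ Icc (0 : ℝ) 1, LL r x ≤ p x ∧ p x ≤ UU r x) ∧ (∃ ξ ∈ Icc (0 : ℝ) r, p ξ ≤ r) ∧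
    (∃ η ∈ Icc (1 - r) 1, 1 - r ≤ p η)

lemma even_abs {p : ℝ → ℝ} (hp : ∀ x, p (-x) = p x) (x : ℝ) : p |x| = p x := by
  rcases abs_choice x with h | h <;> rw [h]
  exact hp x

lemma near_to_band {r : ℝ} {p : ℝ → ℝ} (hp : ∀ x, p (-x) = p x)
    (h : Near r (fun x => |x|) p) : Band r p := by
  refine ⟨fun x hx => ?_, ?_, ?_⟩
  · obtain ⟨ξ, hξ, h1, h2⟩ := h.2 x ⟨by linarith [hx.1], hx.2⟩
    have h3 : |ξ| ≤ 1 := abs_le.mpr hξ
    have h4 : |ξ| ≤ x + r := by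
      have := abs_sub_abs_le_abs_sub ξ x
      rw [abs_sub_comm, abs_of_nonneg hx.1] at this
      linarith
    have h5 : x - r ≤ |ξ| := by
      have := abs_sub_abs_le_abs_sub x ξ
      rw [abs_of_nonneg hx.1] at this
      linarith
    have h6 : max (x - r) 0 ≤ |ξ| := max_le h5 (abs_nonneg _)
    have h7 : |ξ| ≤ min (x + r) 1 := le_min h4 h3
    simp only at h2
    rw [abs_le] at h2
    unfold LL UU
    constructor <;> linarith [h2.1, h2.2]
  · obtain ⟨ξ, _, h1, h2⟩ := h.1 0 (by norm_num)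
    refine ⟨|ξ|, ⟨abs_nonneg _, by simpa using h1⟩, ?_⟩
    rw [even_abs hp]
    simp only [abs_zero, zero_sub, abs_neg] at h2
    exact (le_abs_self _).trans h2
  · obtain ⟨ξ, hξ, h1, h2⟩ := h.1 1 (by norm_num)
    refine ⟨ξ, ⟨by linarith [(abs_le.mp h1).2], hξ.2⟩, ?_⟩
    simp only [abs_one] at h2
    linarith [(abs_le.mp h2).2]

lemma band_to_near {r : ℝ} {p : ℝ → ℝ} (hp : ∀ x, p (-x) = p x) (hc : Continuous p)
    (hr0 : 0 ≤ r) (hr1 : r ≤ 1) (h : Band r p) : Near r (fun x => |x|) p := by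
  obtain ⟨hb, ⟨ξ0, hξ0, hξ0'⟩, ⟨η0, hη0, hη0'⟩⟩ := h
  have key1 : ∀ x ∈ Icc (0 : ℝ) 1, ∃ ξ ∈ Icc (0 : ℝ) 1, |x - ξ| ≤ r ∧ |x - p ξ| ≤ r := by
    intro x hx
    have ha : ∃ a ∈ Icc (0 : ℝ) 1, |x - a| ≤ r ∧ p a ≤ x + r := by
      by_cases hxr : r ≤ x
      · refine ⟨x - r, ⟨by linarith, by linarith [hx.2]⟩, by simpa using (abs_of_nonneg hr0).le, ?_⟩
        have := (hb (x - r) ⟨by linarith, by linarith [hx.2]⟩).2
        unfold UU at this
        linarith [min_le_left (x - r + r) 1]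
      · refine ⟨ξ0, ⟨hξ0.1, hξ0.2.trans hr1⟩, abs_le.mpr ⟨?_, ?_⟩, ?_⟩ <;>
          linarith [hx.1, hξ0.1, hξ0.2]
    have hb' : ∃ b ∈ Icc (0 : ℝ) 1, |x - b| ≤ r ∧ x - r ≤ p b := by
      by_cases hxr : x + r ≤ 1
      · refine ⟨x + r, ⟨by linarith [hx.1], hxr⟩, by simpa using (abs_of_nonneg hr0).le, ?_⟩
        have := (hb (x + r) ⟨by linarith [hx.1], hxr⟩).1
        unfold LL at this
        linarith [le_max_left (x + r - r) 0]
      · refine ⟨η0, ⟨by linarith [hη0.1], hη0.2⟩, abs_le.mpr ⟨?_, ?_⟩, ?_⟩ <;>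
          linarith [hx.2, hη0.1, hη0.2]
    obtain ⟨a, ha1, ha2, ha3⟩ := ha
    obtain ⟨b, hb1, hb2, hb3⟩ := hb'
    by_cases h1 : x - r ≤ p a
    · exact ⟨a, ha1, ha2, abs_le.mpr ⟨by linarith, by linarith⟩⟩
    by_cases h2 : p b ≤ x + r
    · exact ⟨b, hb1, hb2, abs_le.mpr ⟨by linarith, by linarith⟩⟩
    have hmem : x ∈ uIcc (p a) (p b) := by
      rw [mem_uIcc]; left; constructor <;> linarith
    obtain ⟨c, hc1, hc2⟩ := intermediate_value_uIcc (f := p) (a := a) (b := b) hc.continuousOn hmem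
    rw [abs_le] at ha2 hb2
    rcases mem_uIcc.mp hc1 with h3 | h3
    · exact ⟨c, ⟨by linarith [ha1.1, h3.1], by linarith [hb1.2, h3.2]⟩,
        abs_le.mpr ⟨by linarith [h3.2], by linarith [h3.1]⟩, by rw [hc2]; simpa using hr0⟩
    · exact ⟨c, ⟨by linarith [hb1.1, h3.1], by linarith [ha1.2, h3.2]⟩,
        abs_le.mpr ⟨by linarith [h3.2], by linarith [h3.1]⟩, by rw [hc2]; simpa using hr0⟩
  have key2 : ∀ x ∈ Icc (0 : ℝ) 1, ∃ ξ ∈ Icc (0 : ℝ) 1, |x - ξ| ≤ r ∧ |ξ - p x| ≤ r := by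
    intro x hx
    obtain ⟨h1, h2⟩ := hb x hx
    unfold LL at h1
    unfold UU at h2
    have e1 := le_max_left (x - r) 0
    have e2 := le_max_right (x - r) 0
    have e3 := min_le_left (x + r) 1
    have e4 := min_le_right (x + r) 1
    have e5 : max (x - r) 0 ≤ x := max_le (by linarith) hx.1
    have e6 : x ≤ min (x + r) 1 := le_min (by linarith) hx.2
    by_cases h3 : p x ≤ max (x - r) 0
    · exact ⟨max (x - r) 0, ⟨e2, by linarith [hx.2]⟩, abs_le.mpr ⟨by linarith, by linarith⟩,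
        abs_le.mpr ⟨by linarith, by linarith⟩⟩
    by_cases h4 : min (x + r) 1 ≤ p x
    · exact ⟨min (x + r) 1, ⟨by linarith [hx.1], e4⟩, abs_le.mpr ⟨by linarith, by linarith⟩,
        abs_le.mpr ⟨by linarith, by linarith⟩⟩
    · exact ⟨p x, ⟨by linarith, by linarith⟩, abs_le.mpr ⟨by linarith, by linarith⟩,
        by simpa using hr0⟩
  constructor
  · intro x hx
    by_cases h0 : 0 ≤ x
    · obtain ⟨ξ, hξ, h1, h2⟩ := key1 x ⟨h0, hx.2⟩
      exact ⟨ξ, ⟨by linarith [hξ.1], hξ.2⟩, h1, by simpa [abs_of_nonneg h0] using h2⟩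
    · obtain ⟨ξ, hξ, h1, h2⟩ := key1 (-x) ⟨by linarith, by linarith [hx.1]⟩
      refine ⟨-ξ, ⟨by linarith [hξ.2], by linarith [hξ.1]⟩, ?_, ?_⟩
      · rw [← abs_neg]; convert h1 using 2; ring
      · simp only [hp, abs_of_neg (not_le.mp h0)]; exact h2
  · intro x hx
    by_cases h0 : 0 ≤ x
    · obtain ⟨ξ, hξ, h1, h2⟩ := key2 x ⟨h0, hx.2⟩
      exact ⟨ξ, ⟨by linarith [hξ.1], hξ.2⟩, h1, by simpa [abs_of_nonneg hξ.1] using h2⟩
    · obtain ⟨ξ, hξ, h1, h2⟩ := key2 (-x) ⟨by linarith, by linarith [hx.1]⟩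
      refine ⟨-ξ, ⟨by linarith [hξ.2], by linarith [hξ.1]⟩, ?_, ?_⟩
      · rw [← abs_neg]; convert h1 using 2; ring
      · simp only [abs_neg, abs_of_nonneg hξ.1]; rw [hp] at h2; exact h2

lemma strictify {K : Set ℝ} (hK : IsCompact K) {F G : ℝ → ℝ} (hF : Continuous F)
    (hG : Continuous G) (h0 : ∀ x ∈ K, 0 ≤ F x) (h1 : ∀ x ∈ K, F x = 0 → 0 < G x) :
    ∀ᶠ ε in 𝓝[>] (0 : ℝ), ∀ x ∈ K, 0 < F x + ε * G x := by
  have hK1 : IsCompact (K ∩ {x | G x ≤ 0}) := hK.inter_right (isClosed_le hG continuous_const)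
  have h2 : ∀ᶠ ε in 𝓝 (0 : ℝ), ∀ x ∈ K ∩ {x | G x ≤ 0}, 0 < F x + ε * G x := by
    refine hK1.eventually_forall_of_forall_eventually fun y hy => ?_
    have hc : Continuous (fun z : ℝ × ℝ => F z.2 + z.1 * G z.2) := by fun_prop
    refine hc.continuousAt.eventually (lt_mem_nhds ?_)
    simp only [zero_mul, add_zero]
    exact lt_of_le_of_ne (h0 y hy.1) fun e => absurd (h1 y hy.1 e.symm) (not_lt.mpr hy.2)
  filter_upwards [nhdsWithin_le_nhds h2, self_mem_nhdsWithin] with ε hε hpos x hx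
  by_cases hx' : G x ≤ 0
  · exact hε x ⟨hx, hx'⟩
  · have := mul_pos (show (0 : ℝ) < ε from hpos) (not_le.mp hx')
    linarith [h0 x hx]

lemma continuous_UU : Continuous (fun z : ℝ × ℝ => UU z.1 z.2) := by unfold UU; fun_prop
lemma continuous_LL : Continuous (fun z : ℝ × ℝ => LL z.1 z.2) := by unfold LL; fun_prop

/-- strict inequalities allow a smaller radius -/
lemma band_smaller {r : ℝ} {p : ℝ → ℝ} (hc : Continuous p) (hr : 0 < r)
    (hb : ∀ x ∈ Icc (0 : ℝ) 1, LL r x < p x ∧ p x < UU r x) {ξ η : ℝ} (hξ : ξ ∈ Icc (0 : ℝ) r)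
    (hξ' : p ξ < r) (hη : η ∈ Icc (1 - r) 1) (hη' : 1 - r < p η) :
    ∃ r', 0 ≤ r' ∧ r' < r ∧ Band r' p := by
  have h1 : ∀ᶠ s in 𝓝 r, ∀ x ∈ Icc (0 : ℝ) 1, LL s x < p x ∧ p x < UU s x := by
    refine isCompact_Icc.eventually_forall_of_forall_eventually fun y hy => ?_
    have hp2 : Continuous (fun z : ℝ × ℝ => p z.2) := by fun_prop
    exact (continuous_LL.continuousAt.eventually_lt hp2.continuousAt (hb y hy).1).and
      (hp2.continuousAt.eventually_lt continuous_UU.continuousAt (hb y hy).2)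
  have h2 : ∀ᶠ s in 𝓝 r, p (min ξ s) < s := by
    have : Continuous (fun s => p (min ξ s)) := by fun_prop
    refine this.continuousAt.eventually_lt continuousAt_id ?_
    simpa [min_eq_left hξ.2] using hξ'
  have h3 : ∀ᶠ s in 𝓝 r, 1 - s < p (max η (1 - s)) := by
    have : Continuous (fun s => p (max η (1 - s))) := by fun_prop
    refine (by fun_prop : Continuous (fun s : ℝ => 1 - s)).continuousAt.eventually_lt
      this.continuousAt ?_
    simpa [max_eq_left hη.1] using hη'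
  have h4 : ∀ᶠ s in 𝓝 r, 0 < s := lt_mem_nhds hr
  have h5 : ∀ᶠ s in 𝓝[<] r, s < r := self_mem_nhdsWithin
  obtain ⟨s, ⟨⟨⟨e1, e2⟩, e3⟩, e4⟩, e5⟩ :=
    (((((h1.and h2).and h3).and h4).filter_mono nhdsWithin_le_nhds).and h5).exists
  exact ⟨s, e4.le, e5, fun x hx => ⟨(e1 x hx).1.le, (e1 x hx).2.le⟩,
    ⟨min ξ s, ⟨le_min hξ.1 e4.le, min_le_right _ _⟩, e2.le⟩,
    ⟨max η (1 - s), ⟨le_max_right _ _, max_le hη.2 (by linarith)⟩, e3.le⟩⟩

/-- the points where the upper constraints are active -/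
def Aup (r : ℝ) (p : ℝ → ℝ) (ξ : ℝ) : Set ℝ :=
  (Icc (0 : ℝ) 1 ∩ {x | p x = UU r x}) ∪ ({ξ} ∩ {x | p x = r})
/-- the points where the lower constraints are active -/
def Alo (r : ℝ) (p : ℝ → ℝ) (η : ℝ) : Set ℝ :=
  (Icc (0 : ℝ) 1 ∩ {x | p x = LL r x}) ∪ ({η} ∩ {x | p x = 1 - r})

lemma exists_alt (k : ℕ) (hk : 1 ≤ k) :
    ∃ (q : ℝ[X]) (r ξ η : ℝ) (z : ℕ → ℝ), q.natDegree ≤ k ∧ 0 < r ∧ r ≤ 1 / 8 ∧
      hdist (fun x => |x|) (fun x => q.eval (x ^ 2)) = r ∧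
      ξ ∈ Icc (0 : ℝ) r ∧ (∀ x ∈ Icc (0 : ℝ) r, q.eval (ξ ^ 2) ≤ q.eval (x ^ 2)) ∧
      η ∈ Icc (1 - r) 1 ∧ (∀ x ∈ Icc (1 - r) 1, q.eval (x ^ 2) ≤ q.eval (η ^ 2)) ∧
      AltSeq (Aup r (fun x => q.eval (x ^ 2)) ξ) (Alo r (fun x => q.eval (x ^ 2)) η) (k + 2) z := by
  have habs : ContinuousOn (fun x : ℝ => |x|) (Icc (-1 : ℝ) 1) := by fun_prop
  have hsq : StrictMonoOn (fun x : ℝ => x ^ 2) (Icc (0 : ℝ) 1) :=
    fun a ha b _ hab => pow_lt_pow_left₀ hab ha.1 (by norm_num)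
  have hinf : ((fun x : ℝ => x ^ 2) '' Icc (-1 : ℝ) 1).Infinite := by
    refine Set.Infinite.mono (image_mono (Icc_subset_Icc_left (by norm_num : (-1 : ℝ) ≤ 0))) ?_
    exact (Icc_infinite (by norm_num)).image hsq.injOn
  obtain ⟨q, hq, hmin⟩ := exists_best (fun x => |x|) habs (fun x => x ^ 2) (by fun_prop) hinf k
  have hcont : ∀ q : ℝ[X], Continuous (fun x : ℝ => q.eval (x ^ 2)) :=
    fun q => q.continuous.comp (by fun_prop)
  set p : ℝ → ℝ := fun x => q.eval (x ^ 2) with hpdef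
  set r := hdist (fun x => |x|) p with hr
  have hnear : Near r (fun x => |x|) p := (hdist_le_iff habs (hcont q).continuousOn _).mp le_rfl
  have heven : ∀ q : ℝ[X], ∀ x : ℝ, q.eval ((-x) ^ 2) = q.eval (x ^ 2) := fun q x => by simp
  have hr8 : r ≤ 1 / 8 := by
    refine (hmin (X + C (1 / 8)) (le_trans (by compute_degree) hk)).trans ?_
    rw [hdist_le_iff habs (hcont _).continuousOn]
    have : ∀ x ∈ Icc (-1 : ℝ) 1, |(|x| - (X + C (1 / 8) : ℝ[X]).eval (x ^ 2))| ≤ 1 / 8 := by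
      intro x hx
      have h1 : |x| ≤ 1 := abs_le.mpr hx
      have h2 := abs_nonneg x
      simp only [eval_add, eval_X, eval_C]
      rw [← sq_abs x, abs_le]
      constructor <;> nlinarith [sq_nonneg (|x| - 1 / 2)]
    exact ⟨fun x hx => ⟨x, hx, by simp, this x hx⟩, fun x hx => ⟨x, hx, by simp, this x hx⟩⟩
  have hr0 : 0 < r := by
    refine lt_of_le_of_ne hnear.nonneg fun e => ?_
    rw [← e] at hnear
    have h1 : ∀ x ∈ Icc (-1 : ℝ) 1, |x| = p x := by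
      intro x hx
      obtain ⟨ξ, _, h1, h2⟩ := hnear.1 x hx
      have e1 : x = ξ := by simpa [sub_eq_zero] using h1
      subst e1
      simpa [sub_eq_zero] using h2
    have h2 : (fun x : ℝ => |x|) =ᶠ[𝓝 0] p := by
      filter_upwards [Icc_mem_nhds (by norm_num : (-1 : ℝ) < 0) (by norm_num : (0 : ℝ) < 1)]
        with x hx using h1 x hx
    have h3 : DifferentiableAt ℝ p 0 := (q.differentiable.comp (by fun_prop)).differentiableAt
    exact not_differentiableAt_abs_zero (h3.congr_of_eventuallyEq h2)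
  obtain ⟨hb, ⟨ξ0, hξ0, hξ0'⟩, ⟨η0, hη0, hη0'⟩⟩ := near_to_band (heven q) hnear
  obtain ⟨ξ, hξ, hξmin⟩ := (isCompact_Icc (a := (0 : ℝ)) (b := r)).exists_isMinOn ⟨ξ0, hξ0⟩
    (hcont q).continuousOn
  obtain ⟨η, hη, hηmax⟩ := (isCompact_Icc (a := 1 - r) (b := (1 : ℝ))).exists_isMaxOn ⟨η0, hη0⟩
    (hcont q).continuousOn
  have hξle : p ξ ≤ r := (hξmin hξ0).trans hξ0'
  have hηle : 1 - r ≤ p η := hη0'.trans (hηmax hη0)
  have hUc : Continuous (UU r) := by unfold UU; fun_prop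
  have hLc : Continuous (LL r) := by unfold LL; fun_prop
  have hex : ∃ z, AltSeq (Aup r p ξ) (Alo r p η) (k + 2) z := by
    by_contra hno
    have hupc : IsCompact (Aup r p ξ) :=
      (isCompact_Icc.inter_right (isClosed_eq (hcont q) hUc)).union
        (isCompact_singleton.inter_right (isClosed_eq (hcont q) continuous_const))
    have hloc : IsCompact (Alo r p η) :=
      (isCompact_Icc.inter_right (isClosed_eq (hcont q) hLc)).union
        (isCompact_singleton.inter_right (isClosed_eq (hcont q) continuous_const))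
    have hupS : Aup r p ξ ⊆ Icc (0 : ℝ) 1 := by
      rintro x (hx | ⟨hx, _⟩)
      · exact hx.1
      · rw [mem_singleton_iff.mp hx]; exact ⟨hξ.1, by linarith [hξ.2]⟩
    have hloS : Alo r p η ⊆ Icc (0 : ℝ) 1 := by
      rintro x (hx | ⟨hx, _⟩)
      · exact hx.1
      · rw [mem_singleton_iff.mp hx]; exact ⟨by linarith [hη.1], hη.2⟩
    have hdisj : Disjoint (Aup r p ξ) (Alo r p η) := by
      rw [Set.disjoint_left]
      rintro x (⟨hx, h1⟩ | ⟨hx, h1⟩) (⟨hy, h2⟩ | ⟨hy, h2⟩) <;>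
        simp only [mem_ofPred_eq, mem_singleton_iff, UU, LL] at *
      · have e5 : max (x - r) 0 ≤ x := max_le (by linarith) hx.1
        have e6 : x ≤ min (x + r) 1 := le_min (by linarith) hx.2
        linarith
      · rw [min_eq_right (by linarith [hη.1])] at h1; linarith
      · rw [max_eq_right (by linarith [hξ.2])] at h2; linarith
      · linarith
    obtain ⟨h, hdeg, hpos, hneg⟩ := sign_poly (fun x => x ^ 2) _ hsq k _ _ hupc hloc hupS hloS
      hdisj hno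
    have e1 := strictify (isCompact_Icc (a := (0 : ℝ)) (b := 1)) (F := fun x => UU r x - p x)
      (G := fun x => h.eval (x ^ 2)) (hUc.sub (hcont q)) (hcont h)
      (fun x hx => sub_nonneg.mpr (hb x hx).2)
      (fun x hx e => hpos x (Or.inl ⟨hx, (sub_eq_zero.mp e).symm⟩))
    have e2 := strictify (isCompact_Icc (a := (0 : ℝ)) (b := 1)) (F := fun x => p x - LL r x)
      (G := fun x => - h.eval (x ^ 2)) ((hcont q).sub hLc) (hcont h).neg
      (fun x hx => sub_nonneg.mpr (hb x hx).1)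
      (fun x hx e => neg_pos.mpr (hneg x (Or.inl ⟨hx, sub_eq_zero.mp e⟩)))
    have e3 := strictify (isCompact_singleton (x := ξ)) (F := fun x => r - p x)
      (G := fun x => h.eval (x ^ 2)) (continuous_const.sub (hcont q)) (hcont h)
      (fun x hx => by rw [mem_singleton_iff.mp hx]; exact sub_nonneg.mpr hξle)
      (fun x hx e => hpos x (Or.inr ⟨hx, (sub_eq_zero.mp e).symm⟩))
    have e4 := strictify (isCompact_singleton (x := η)) (F := fun x => p x - (1 - r))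
      (G := fun x => - h.eval (x ^ 2)) ((hcont q).sub continuous_const) (hcont h).neg
      (fun x hx => by rw [mem_singleton_iff.mp hx]; exact sub_nonneg.mpr hηle)
      (fun x hx e => neg_pos.mpr (hneg x (Or.inr ⟨hx, sub_eq_zero.mp e⟩)))
    obtain ⟨ε, ⟨⟨f1, f2⟩, f3⟩, f4⟩ := (((e1.and e2).and e3).and e4).exists
    set q' : ℝ[X] := q - C ε * h with hq'
    have hq'deg : q'.natDegree ≤ k :=
      (natDegree_sub_le _ _).trans (max_le hq ((natDegree_C_mul_le _ _).trans hdeg))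
    have hev : ∀ x : ℝ, q'.eval (x ^ 2) = p x - ε * h.eval (x ^ 2) := fun x => by simp [hq', hpdef]
    obtain ⟨s, hs0, hsr, hs⟩ := band_smaller (p := fun x => q'.eval (x ^ 2)) (hcont q') hr0
      (fun x hx => by
        rw [hev]; have := f1 x hx; have := f2 x hx; constructor <;> linarith)
      hξ (by rw [hev]; have := f3 ξ rfl; linarith) hη (by rw [hev]; have := f4 η rfl; linarith)
    have := (hdist_le_iff habs (hcont q').continuousOn s).mpr
      (band_to_near (heven q') (hcont q') hs0 (by linarith) hs)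
    have := hmin q' hq'deg
    linarith
  obtain ⟨z, hz⟩ := hex
  exact ⟨q, r, ξ, η, z, hq, hr0, hr8, rfl, hξ, fun x hx => hξmin hx, hη, fun x hx => hηmax hx, hz⟩

end Pool.Agent.MP_170294_an.H84
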