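import Mathlib

namespace Pool.Agent.MP_170294_an.H84

open Set Polynomial

/-- The Hausdorff difference `|f(x) - g(x)|_1` on the interval `[-1,1]`. -/
noncomputable def hdiff (f g : ℝ → ℝ) (x : ℝ) : ℝ :=
  max (sInf ((fun ξ => max |x - ξ| |f x - g ξ|) '' Icc (-1 : ℝ) 1))
      (sInf ((fun ξ => max |x - ξ| |f ξ - g x|) '' Icc (-1 : ℝ) 1))

/-- The Hausdorff distance `r([-1,1]; f, g)`. -/
noncomputable def hdist (f g : ℝ → ℝ) : ℝ :=
  sSup (hdiff f g '' Icc (-1 : ℝ) 1)

/-- The best Hausdorff approximation `E_n(f)` by real polynomials of degree at most `n`. -/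
noncomputable def bestApprox (n : ℕ) (f : ℝ → ℝ) : ℝ :=
  sInf ((fun p : ℝ[X] => hdist f (fun x => p.eval x)) '' {p | p.natDegree ≤ n})

end Pool.Agent.MP_170294_an.H84
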