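import Pool.Agent.MP_170294_an.H84.Band

namespace Pool.Agent.MP_170294_an.H84

open Set Polynomial Filter Topology

lemma AltSeq.exists_sign {A B : Set ℝ} {m : ℕ} {z : ℕ → ℝ} (h : AltSeq A B (m + 1) z) :
    ∃ s : ℝ, ∀ j, j < m + 1 →
      (s * (-1) ^ j = 1 ∧ z j ∈ A) ∨ (s * (-1) ^ j = -1 ∧ z j ∈ B) := by
  have key : ∀ s : ℝ, ((s = 1 ∧ z 0 ∈ A) ∨ (s = -1 ∧ z 0 ∈ B)) → ∀ j, j < m + 1 →
      (s * (-1) ^ j = 1 ∧ z j ∈ A) ∨ (s * (-1) ^ j = -1 ∧ z j ∈ B) := by
    intro s hs j hj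
    induction j with
    | zero => simpa using hs
    | succ j ih =>
      rcases ih (by omega) with ⟨h1, h2⟩ | ⟨h1, h2⟩
      · right
        exact ⟨by rw [pow_succ, ← mul_assoc, h1]; ring, (h.2.2 j hj).1.mp h2⟩
      · left
        exact ⟨by rw [pow_succ, ← mul_assoc, h1]; ring, (h.2.2 j hj).2.mp h2⟩
  rcases h.2.1 0 (by omega) with h0 | h0
  · exact ⟨1, key 1 (Or.inl ⟨rfl, h0⟩)⟩
  · exact ⟨-1, key (-1) (Or.inr ⟨rfl, h0⟩)⟩

/-- the core comparison: no polynomial of degree at most `2k` satisfies the tighter constraints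
on the interval `[-1, z k]` -/
lemma no_better (k : ℕ) (hk : 1 ≤ k) (q : ℝ[X]) (r ξ η : ℝ) (z : ℕ → ℝ) (hq : q.natDegree ≤ k)
    (hr0 : 0 < r) (hr8 : r ≤ 1 / 8)
    (hξ : ξ ∈ Icc (0 : ℝ) r) (hξmin : ∀ x ∈ Icc (0 : ℝ) r, q.eval (ξ ^ 2) ≤ q.eval (x ^ 2))
    (hη : η ∈ Icc (1 - r) 1) (hηmax : ∀ x ∈ Icc (1 - r) 1, q.eval (x ^ 2) ≤ q.eval (η ^ 2))
    (hz : AltSeq (Aup r (fun x => q.eval (x ^ 2)) ξ) (Alo r (fun x => q.eval (x ^ 2)) η) (k + 2) z)
    (G : ℝ[X]) (hG : G.natDegree ≤ 2 * k) (t : ℝ) (_ht0 : 0 ≤ t) (htr : t < r)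
    (hU : ∀ u ∈ Icc (-1) (z k), G.eval u ≤ min (|u| + t) 1 + r)
    (hL : ∀ u ∈ Icc (-1) (z k), max (|u| - t) 0 - r ≤ G.eval u)
    (w0 : ℝ) (hw0 : |w0| ≤ t) (hw0' : G.eval w0 ≤ r)
    (w1 : ℝ) (hw1 : w1 ∈ Icc (-1) (-1 + t)) (hw1' : 1 - r ≤ G.eval w1) : False := by
  set p : ℝ → ℝ := fun x => q.eval (x ^ 2) with hpdef
  have hpe : ∀ x, p (-x) = p x := fun x => by simp [hpdef]
  have hξmin' : ∀ x ∈ Icc (0 : ℝ) r, p ξ ≤ p x := hξmin
  have hηmax' : ∀ x ∈ Icc (1 - r) 1, p x ≤ p η := hηmax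
  have hI : ∀ j, j < k + 2 → z j ∈ Icc (0 : ℝ) 1 := by
    intro j hj
    rcases hz.2.1 j hj with (h | ⟨h, _⟩) | (h | ⟨h, _⟩)
    · exact h.1
    · rw [mem_singleton_iff.mp h]; exact ⟨hξ.1, by linarith [hξ.2]⟩
    · exact h.1
    · rw [mem_singleton_iff.mp h]; exact ⟨by linarith [hη.1], hη.2⟩
  -- if the central constraint is active, lower points lie beyond r
  have hlo_gt : p ξ = r → ∀ x ∈ Alo r p η, r < x := by
    rintro e x (⟨hx, h⟩ | ⟨hx, _⟩)
    · by_contra hc
      have h1 := hξmin' x ⟨hx.1, not_lt.mp hc⟩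
      simp only [mem_ofPred_eq, LL] at h
      rw [max_eq_right (by linarith)] at h
      linarith
    · rw [mem_singleton_iff.mp hx]; linarith [hη.1]
  have hup_lt : p η = 1 - r → ∀ x ∈ Aup r p ξ, x < 1 - r := by
    rintro e x (⟨hx, h⟩ | ⟨hx, _⟩)
    · by_contra hc
      have h1 := hηmax' x ⟨not_lt.mp hc, hx.2⟩
      simp only [mem_ofPred_eq, UU] at h
      rw [min_eq_right (by linarith)] at h
      linarith
    · rw [mem_singleton_iff.mp hx]; linarith [hξ.2]
  have hupband : ∀ j, j + 1 < k + 2 → z (j + 1) ∈ Aup r p ξ → p (z (j + 1)) = UU r (z (j + 1)) := by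
    rintro j hj hmem
    rcases id hmem with h | ⟨h, h'⟩
    · exact h.2
    · exfalso
      have e := mem_singleton_iff.mp h
      have h1 : z j ∈ Alo r p η := (hz.2.2 j hj).2.mpr hmem
      have h2 := hlo_gt (by rw [← e]; exact h') _ h1
      have h3 := hz.1 j hj
      linarith [hξ.2]
  have hloband : ∀ j, j + 1 < k + 2 → z j ∈ Alo r p η → p (z j) = LL r (z j) := by
    rintro j hj hmem
    rcases id hmem with h | ⟨h, h'⟩
    · exact h.2
    · exfalso
      have e := mem_singleton_iff.mp h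
      have h1 : z (j + 1) ∈ Aup r p ξ := (hz.2.2 j hj).2.mp hmem
      have h2 := hup_lt (by rw [← e]; exact h') _ h1
      have h3 := hz.1 j hj
      linarith [hη.1]
  have hle : ∀ j, j ≤ k → z j ≤ z k := by
    intro j hj
    rcases hj.lt_or_eq with h | h
    · exact (hz.lt_of_lt h (by omega)).le
    · rw [h]
  have hzk0 : 0 ≤ z k := (hI k (by omega)).1
  -- comparison at band points
  have cU : ∀ u ∈ Icc (-1) (z k), p u = UU r |u| → G.eval u ≤ p u := by
    intro u hu e
    have := hU u hu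
    rw [e]; unfold UU
    have : min (|u| + t) 1 ≤ min (|u| + r) 1 := min_le_min_right _ (by linarith)
    linarith
  have cL : ∀ u ∈ Icc (-1) (z k), p u = LL r |u| → p u ≤ G.eval u := by
    intro u hu e
    have := hL u hu
    rw [e]; unfold LL
    have : max (|u| - r) 0 ≤ max (|u| - t) 0 := max_le_max_right _ (by linarith)
    linarith
  have mR : ∀ j, j ≤ k → z j ∈ Icc (-1) (z k) :=
    fun j hj => ⟨by linarith [(hI j (by omega)).1], hle j hj⟩
  have mL : ∀ j, j < k + 2 → -z j ∈ Icc (-1) (z k) :=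
    fun j hj => ⟨by linarith [(hI j hj).2], by linarith [(hI j hj).1]⟩
  have aR : ∀ j, j < k + 2 → |z j| = z j := fun j hj => abs_of_nonneg (hI j hj).1
  have aL : ∀ j, j < k + 2 → |-z j| = z j := fun j hj => by rw [abs_neg, aR j hj]
  -- the central point
  obtain ⟨c, hc1, hc2, hc3, hc4⟩ : ∃ c, -z 1 < c ∧ c < z 1 ∧
      (z 0 ∈ Aup r p ξ → G.eval c ≤ p c) ∧ (z 0 ∈ Alo r p η → p c ≤ G.eval c) := by
    have h01 := hz.1 0 (by omega)
    simp only [zero_add] at h01
    by_cases hc : z 0 = ξ ∧ p ξ = r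
    · have hmem : z 0 ∈ Aup r p ξ := Or.inr ⟨hc.1, by rw [hc.1]; exact hc.2⟩
      have h1 : z 1 ∈ Alo r p η := (hz.2.2 0 (by omega)).1.mp hmem
      have h2 := hlo_gt hc.2 _ h1
      rw [abs_le] at hw0
      refine ⟨w0, by linarith [hw0.1], by linarith [hw0.2], fun _ => ?_, fun h => ?_⟩
      · have := hξmin' |w0| ⟨abs_nonneg _, abs_le.mpr ⟨by linarith [hw0.1], by linarith [hw0.2]⟩⟩
        rw [even_abs hpe] at this
        linarith [hc.2]
      · have := hlo_gt hc.2 _ h
        linarith [hc.1, hξ.2]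
    · have h0 := (hI 0 (by omega)).1
      refine ⟨z 0, by linarith, h01, fun h => cU _ (mR 0 (by omega)) ?_,
        fun h => cL _ (mR 0 (by omega)) ?_⟩
      · rw [aR 0 (by omega)]
        rcases h with h | ⟨h, h'⟩
        · exact h.2
        · exact absurd ⟨h, by rw [← mem_singleton_iff.mp h]; exact h'⟩ hc
      · rw [aR 0 (by omega)]; exact hloband 0 (by omega) h
  -- the leftmost point
  obtain ⟨a, ha1, ha3, ha4⟩ : ∃ a, a < -z k ∧
      (z (k + 1) ∈ Aup r p ξ → G.eval a ≤ p a) ∧ (z (k + 1) ∈ Alo r p η → p a ≤ G.eval a) := by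
    have h01 := hz.1 k (by omega)
    by_cases hc : z (k + 1) = η ∧ p η = 1 - r
    · have hmem : z (k + 1) ∈ Alo r p η := Or.inr ⟨hc.1, by rw [hc.1]; exact hc.2⟩
      have h1 : z k ∈ Aup r p ξ := (hz.2.2 k (by omega)).1.mpr hmem
      have h2 := hup_lt hc.2 _ h1
      refine ⟨w1, by linarith [hw1.2], fun h => ?_, fun _ => ?_⟩
      · have := hup_lt hc.2 _ h
        linarith [hc.1, hη.1]
      · have := hηmax' (-w1) ⟨by linarith [hw1.2], by linarith [hw1.1]⟩
        rw [hpe] at this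
        linarith [hc.2]
    · refine ⟨-z (k + 1), by linarith, fun h => cU _ (mL _ (by omega)) ?_,
        fun h => cL _ (mL _ (by omega)) ?_⟩
      · rw [aL _ (by omega), hpe]; exact hupband k (by omega) h
      · rw [aL _ (by omega), hpe]
        rcases h with h | ⟨h, h'⟩
        · exact h.2
        · exact absurd ⟨h, by rw [← mem_singleton_iff.mp h]; exact h'⟩ hc
  obtain ⟨s, hs⟩ := hz.exists_sign
  set Pq : ℝ[X] := q.comp (X ^ 2) with hPq
  have hPqe : ∀ x, Pq.eval x = p x := fun x => by simp [hPq, hpdef, eval_comp]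
  have hPqd : Pq.natDegree ≤ 2 * k := by
    refine natDegree_comp_le.trans ?_
    rw [natDegree_X_pow]; omega
  set D : ℝ[X] := C (s * (-1) ^ k) * (Pq - G) with hD
  have hDd : D.natDegree ≤ 2 * k :=
    (natDegree_C_mul_le _ _).trans ((natDegree_sub_le _ _).trans (max_le hPqd hG))
  have hDe : ∀ x, D.eval x = s * (-1) ^ k * (p x - G.eval x) := fun x => by simp [hD, hPqe]
  let y : ℕ → ℝ := fun i => if i < k then z (k - i) else if i = k then c
    else if i < 2 * k + 1 then -z (i - k) else a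
  have hsign : ∀ (i j : ℕ) (u : ℝ), j < k + 2 → (i + j = k ∨ i = k + j) →
      (z j ∈ Aup r p ξ → G.eval u ≤ p u) → (z j ∈ Alo r p η → p u ≤ G.eval u) →
      0 ≤ (-1) ^ i * D.eval u := by
    intro i j u hj hij h1 h2
    have e : (-1 : ℝ) ^ i * (s * (-1) ^ k) = s * (-1) ^ j := by
      have e1 : ∀ m : ℕ, ((-1 : ℝ)) ^ m * (-1) ^ m = 1 := fun m => by rw [← mul_pow]; simp
      rcases hij with h | h
      · rw [← h, pow_add]; linear_combination (s * (-1) ^ j) * e1 i
      · rw [h, pow_add]; linear_combination (s * (-1) ^ j) * e1 k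
    rw [hDe, ← mul_assoc, e]
    rcases hs j hj with ⟨h3, h4⟩ | ⟨h3, h4⟩
    · rw [h3]; linarith [h1 h4]
    · rw [h3]; linarith [h2 h4]
  have hD0 : D = 0 := by
    refine eq_zero_of_weak_alt (2 * k) D hDd y ?_ ?_
    · intro i hi
      simp only [y]
      by_cases h1 : i + 1 < k
      · rw [if_pos h1, if_pos (by omega)]
        exact hz.lt_of_lt (by omega) (by omega)
      by_cases h2 : i + 1 = k
      · rw [if_neg h1, if_pos h2, if_pos (by omega), show k - i = 1 by omega]; exact hc2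
      by_cases h3 : i = k
      · rw [if_neg h1, if_neg h2, if_pos (by omega), if_neg (by omega), if_pos h3,
          show i + 1 - k = 1 by omega]
        exact hc1
      by_cases h4 : i + 1 < 2 * k + 1
      · rw [if_neg h1, if_neg h2, if_pos h4, if_neg (by omega), if_neg h3, if_pos (by omega)]
        exact neg_lt_neg (hz.lt_of_lt (by omega) (by omega))
      · rw [if_neg h1, if_neg h2, if_neg h4, if_neg (by omega), if_neg h3, if_pos (by omega),
          show i - k = k by omega]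
        exact ha1
    · intro i hi
      simp only [y]
      by_cases h1 : i < k
      · rw [if_pos h1]
        obtain ⟨j, hj⟩ : ∃ j, k - i = j + 1 := ⟨k - i - 1, by omega⟩
        rw [hj]
        refine hsign i (j + 1) _ (by omega) (by omega) (fun h => cU _ (mR _ (by omega)) ?_)
          (fun h => cL _ (mR _ (by omega)) ?_)
        · rw [aR _ (by omega)]; exact hupband j (by omega) h
        · rw [aR _ (by omega)]; exact hloband _ (by omega) h
      by_cases h2 : i = k
      · rw [if_neg h1, if_pos h2]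
        exact hsign i 0 _ (by omega) (by omega) hc3 hc4
      by_cases h3 : i < 2 * k + 1
      · rw [if_neg h1, if_neg h2, if_pos h3]
        obtain ⟨j, hj⟩ : ∃ j, i - k = j + 1 := ⟨i - k - 1, by omega⟩
        rw [hj]
        refine hsign i (j + 1) _ (by omega) (by omega) (fun h => cU _ (mL _ (by omega)) ?_)
          (fun h => cL _ (mL _ (by omega)) ?_)
        · rw [aL _ (by omega), hpe]; exact hupband j (by omega) h
        · rw [aL _ (by omega), hpe]; exact hloband _ (by omega) h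
      · rw [if_neg h1, if_neg h2, if_neg h3]
        exact hsign i (k + 1) _ (by omega) (by omega) ha3 ha4
  have heq : ∀ x, G.eval x = p x := by
    intro x
    have h1 := hDe x
    rw [hD0, eval_zero] at h1
    have h2 : s * (-1) ^ k ≠ 0 := by
      rcases hs k (by omega) with ⟨h, _⟩ | ⟨h, _⟩ <;> rw [h] <;> norm_num
    have := (mul_eq_zero.mp h1.symm).resolve_left h2
    linarith
  have nU : ∀ j, j < k + 2 → p (z j) = UU r (z j) → 1 - r ≤ z j := by
    intro j hj e
    have h1 := hU _ (mL j hj)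
    rw [heq, hpe, aL j hj, e] at h1
    unfold UU at h1
    by_contra hc
    rw [min_eq_left (by linarith), min_eq_left (by linarith)] at h1
    linarith
  have nL : ∀ j, j < k + 2 → p (z j) = LL r (z j) → z j ≤ r := by
    intro j hj e
    have h1 := hL _ (mL j hj)
    rw [heq, hpe, aL j hj, e] at h1
    unfold LL at h1
    by_contra hc
    rw [max_eq_left (by linarith), max_eq_left (by linarith)] at h1
    linarith
  have h01 := hz.1 0 (by omega)
  have h12 := hz.1 1 (by omega)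
  simp only [zero_add] at h01
  rcases hz.2.1 1 (by omega) with h | h
  · have h1 := nU 1 (by omega) (hupband 0 (by omega) h)
    have h2 : z 2 ∈ Alo r p η := (hz.2.2 1 (by omega)).1.mp h
    rcases h2 with h2 | ⟨_, h2⟩
    · have := nL 2 (by omega) h2.2
      linarith
    · rename_i h3
      have := hup_lt (by rw [← mem_singleton_iff.mp h3]; exact h2) _ h
      linarith
  · have h1 := nL 1 (by omega) (hloband 1 (by omega) h)
    have h2 : z 0 ∈ Aup r p ξ := (hz.2.2 0 (by omega)).1.mpr h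
    rcases h2 with h2 | ⟨h3, h2⟩
    · have := nU 0 (by omega) h2.2
      linarith
    · have := hlo_gt (by rw [← mem_singleton_iff.mp h3]; exact h2) _ h
      linarith

theorem main (k : ℕ) (hk : 1 ≤ k) :
    ∃ f : ℝ → ℝ, ContinuousOn f (Icc (-1 : ℝ) 1) ∧ ConvexOn ℝ (Icc (-1 : ℝ) 1) f ∧
      MapsTo f (Icc (-1 : ℝ) 1) (Icc (0 : ℝ) 1) ∧
      bestApprox (2 * k) (fun x => |x|) < bestApprox (2 * k) f := by
  obtain ⟨q, r, ξ, η, z, hq, hr0, hr8, hr, hξ, hξmin, hη, hηmax, hz⟩ := exists_alt k hk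
  have hI : ∀ j, j < k + 2 → z j ∈ Icc (0 : ℝ) 1 := by
    intro j hj
    rcases hz.2.1 j hj with (h | ⟨h, _⟩) | (h | ⟨h, _⟩)
    · exact h.1
    · rw [mem_singleton_iff.mp h]; exact ⟨hξ.1, by linarith [hξ.2]⟩
    · exact h.1
    · rw [mem_singleton_iff.mp h]; exact ⟨by linarith [hη.1], hη.2⟩
  have hβ0 : 0 ≤ z k := (hI k (by omega)).1
  have hβ1 : z k < 1 := (hz.1 k (by omega)).trans_le (hI (k + 1) (by omega)).2
  set β := z k with hβ
  set l : ℝ := 2 / (1 + β) with hl
  have hl1 : 1 < l := by rw [hl, lt_div_iff₀ (by linarith)]; linarith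
  have hl2 : l ≤ 2 := by rw [hl, div_le_iff₀ (by linarith)]; linarith
  have hlβ : l * (1 + β) = 2 := by rw [hl]; field_simp
  have hl0 : 0 < l := by linarith
  set f : ℝ → ℝ := fun x => |(x - (l - 1)) / l| with hf
  have hfc : ContinuousOn f (Icc (-1 : ℝ) 1) := by rw [hf]; fun_prop
  have hfle : ∀ x ∈ Icc (-1 : ℝ) 1, f x ≤ 1 := by
    intro x hx
    simp only [hf]
    rw [abs_div, abs_of_pos hl0, div_le_one hl0, abs_le]
    constructor <;> linarith [hx.1, hx.2]
  refine ⟨f, hfc, ?_, fun x hx => ⟨abs_nonneg _, hfle x hx⟩, ?_⟩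
  · refine ⟨convex_Icc _ _, fun x _ y _ a b ha hb hab => ?_⟩
    simp only [hf, smul_eq_mul]
    have e : (a * x + b * y - (l - 1)) / l = a * ((x - (l - 1)) / l) + b * ((y - (l - 1)) / l) := by
      field_simp
      linear_combination (l - 1) * hab
    rw [e]
    refine (abs_add_le _ _).trans ?_
    rw [abs_mul, abs_mul, abs_of_nonneg ha, abs_of_nonneg hb]
  have habs : ContinuousOn (fun x : ℝ => |x|) (Icc (-1 : ℝ) 1) := by fun_prop
  have h1 : bestApprox (2 * k) (fun x => |x|) ≤ r := by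
    have := bestApprox_le habs (n := 2 * k) (q.comp (X ^ 2))
      (natDegree_comp_le.trans (by rw [natDegree_X_pow]; omega))
    simpa [eval_comp, hr] using this
  refine h1.trans_lt (not_le.mp fun hle => ?_)
  obtain ⟨P, hP, hPe⟩ := exists_bestApprox hfc (2 * k)
  rw [hPe, hdist_le_iff hfc P.continuous.continuousOn] at hle
  set G : ℝ[X] := P.comp (C l * X + C (l - 1)) with hG
  have hGe : ∀ u, G.eval u = P.eval (l * u + (l - 1)) := fun u => by simp [hG, eval_comp]
  have hGd : G.natDegree ≤ 2 * k := by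
    refine natDegree_comp_le.trans ?_
    have : (C l * X + C (l - 1) : ℝ[X]).natDegree ≤ 1 := by compute_degree
    exact (Nat.mul_le_mul hP this).trans (by omega)
  have hband : ∀ u ∈ Icc (-1) β, ∃ w, |w| ≤ 1 ∧ |u - w| ≤ r / l ∧ |(|w| - G.eval u)| ≤ r := by
    intro u hu
    obtain ⟨x, hx, h2, h3⟩ := hle.2 (l * u + (l - 1))
      ⟨by nlinarith [hu.1], by nlinarith [hu.2]⟩
    refine ⟨(x - (l - 1)) / l, hfle x hx, ?_, by rw [hGe]; exact h3⟩
    have e : u - (x - (l - 1)) / l = (l * u + (l - 1) - x) / l := by field_simp; ring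
    rw [e, abs_div, abs_of_pos hl0]
    gcongr
  obtain ⟨x0, hx0, h2, h3⟩ := hle.1 (l - 1) ⟨by linarith, by linarith⟩
  obtain ⟨x1, hx1, h4, h5⟩ := hle.1 (-1) ⟨by linarith, by linarith⟩
  have hback : ∀ x, l * ((x - (l - 1)) / l) + (l - 1) = x := fun x => by field_simp; ring
  refine no_better k hk q r ξ η z hq hr0 hr8 hξ hξmin hη hηmax hz G hGd (r / l) (by positivity)
    (div_lt_self hr0 hl1) ?_ ?_ ((x0 - (l - 1)) / l) ?_ ?_ ((x1 - (l - 1)) / l) ?_ ?_
  · intro u hu
    obtain ⟨w, e1, e2, e3⟩ := hband u hu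
    have e4 : |w| ≤ |u| + r / l := by
      have := abs_sub_abs_le_abs_sub w u
      rw [abs_sub_comm] at this
      linarith
    have : |w| ≤ min (|u| + r / l) 1 := le_min e4 e1
    linarith [(abs_le.mp e3).1]
  · intro u hu
    obtain ⟨w, e1, e2, e3⟩ := hband u hu
    have e4 : |u| - r / l ≤ |w| := by
      have := abs_sub_abs_le_abs_sub u w
      linarith
    have : max (|u| - r / l) 0 ≤ |w| := max_le e4 (abs_nonneg _)
    linarith [(abs_le.mp e3).2]
  · rw [abs_div, abs_of_pos hl0, abs_sub_comm]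
    gcongr
  · rw [hGe, hback]
    simp only [hf, sub_self, zero_div, abs_zero, zero_sub, abs_neg] at h3
    exact (le_abs_self _).trans h3
  · rw [abs_le] at h4
    constructor
    · rw [le_div_iff₀ hl0]; linarith [hx1.1]
    · rw [div_le_iff₀ hl0, add_mul, div_mul_cancel₀ _ hl0.ne']; linarith [h4.1]
  · rw [hGe, hback]
    have e : f (-1) = 1 := by
      simp only [hf]
      rw [show (-1 - (l - 1)) / l = -1 by field_simp; ring]; simp
    rw [e] at h5
    linarith [(abs_le.mp h5).2]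

end Pool.Agent.MP_170294_an.H84
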