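import Pool.Agent.MP_170294_an.H84.Defs

namespace Pool.Agent.MP_170294_an.H84

open Set Polynomial

/-- the graphs of `f` and `g` over `[-1,1]` are within distance `r` of each other -/
def Near (r : ℝ) (f g : ℝ → ℝ) : Prop :=
  (∀ x ∈ Icc (-1 : ℝ) 1, ∃ ξ ∈ Icc (-1 : ℝ) 1, |x - ξ| ≤ r ∧ |f x - g ξ| ≤ r) ∧
  (∀ x ∈ Icc (-1 : ℝ) 1, ∃ ξ ∈ Icc (-1 : ℝ) 1, |x - ξ| ≤ r ∧ |f ξ - g x| ≤ r)

lemma sInf_image_le_iff {φ : ℝ → ℝ} (hφ : ContinuousOn φ (Icc (-1 : ℝ) 1)) (r : ℝ) :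
    sInf (φ '' Icc (-1 : ℝ) 1) ≤ r ↔ ∃ ξ ∈ Icc (-1 : ℝ) 1, φ ξ ≤ r := by
  have hc : IsCompact (φ '' Icc (-1 : ℝ) 1) := isCompact_Icc.image_of_continuousOn hφ
  have hne : (φ '' Icc (-1 : ℝ) 1).Nonempty := ⟨φ 0, 0, by norm_num, rfl⟩
  constructor
  · intro h
    obtain ⟨ξ, hξ, e⟩ := hc.sInf_mem hne
    exact ⟨ξ, hξ, e ▸ h⟩
  · rintro ⟨ξ, hξ, h⟩
    exact (csInf_le hc.bddBelow ⟨ξ, hξ, rfl⟩).trans h

lemma hdiff_le_iff {f g : ℝ → ℝ} (hf : ContinuousOn f (Icc (-1 : ℝ) 1))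
    (hg : ContinuousOn g (Icc (-1 : ℝ) 1)) (x r : ℝ) :
    hdiff f g x ≤ r ↔ (∃ ξ ∈ Icc (-1 : ℝ) 1, |x - ξ| ≤ r ∧ |f x - g ξ| ≤ r) ∧
      (∃ ξ ∈ Icc (-1 : ℝ) 1, |x - ξ| ≤ r ∧ |f ξ - g x| ≤ r) := by
  unfold hdiff
  have h0 : ContinuousOn (fun ξ : ℝ => |x - ξ|) (Icc (-1 : ℝ) 1) := by fun_prop
  rw [max_le_iff, sInf_image_le_iff, sInf_image_le_iff]
  · simp only [max_le_iff]
  · exact h0.sup ((hf.sub continuousOn_const).abs)
  · exact h0.sup ((continuousOn_const.sub hg).abs)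

lemma exists_near {f g : ℝ → ℝ} (hf : ContinuousOn f (Icc (-1 : ℝ) 1))
    (hg : ContinuousOn g (Icc (-1 : ℝ) 1)) : ∃ r, Near r f g := by
  obtain ⟨C, hC⟩ := isCompact_Icc.exists_bound_of_continuousOn (hf.sub hg)
  have h0 : 0 ≤ C := (norm_nonneg _).trans (hC 0 (by norm_num))
  exact ⟨C, fun x hx => ⟨x, hx, by simpa using h0, hC x hx⟩,
    fun x hx => ⟨x, hx, by simpa using h0, hC x hx⟩⟩

lemma hdist_le_iff {f g : ℝ → ℝ} (hf : ContinuousOn f (Icc (-1 : ℝ) 1))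
    (hg : ContinuousOn g (Icc (-1 : ℝ) 1)) (r : ℝ) : hdist f g ≤ r ↔ Near r f g := by
  unfold hdist
  have hne : (hdiff f g '' Icc (-1 : ℝ) 1).Nonempty := ⟨_, 0, by norm_num, rfl⟩
  obtain ⟨C, hC⟩ := exists_near hf hg
  have hbdd : BddAbove (hdiff f g '' Icc (-1 : ℝ) 1) := by
    refine ⟨C, ?_⟩
    rintro _ ⟨x, hx, rfl⟩
    exact (hdiff_le_iff hf hg x C).mpr ⟨hC.1 x hx, hC.2 x hx⟩
  rw [csSup_le_iff hbdd hne]
  constructor
  · intro h
    exact ⟨fun x hx => ((hdiff_le_iff hf hg x r).mp (h _ ⟨x, hx, rfl⟩)).1,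
      fun x hx => ((hdiff_le_iff hf hg x r).mp (h _ ⟨x, hx, rfl⟩)).2⟩
  · rintro h _ ⟨x, hx, rfl⟩
    exact (hdiff_le_iff hf hg x r).mpr ⟨h.1 x hx, h.2 x hx⟩

lemma Near.nonneg {r : ℝ} {f g : ℝ → ℝ} (h : Near r f g) : 0 ≤ r := by
  obtain ⟨ξ, _, h1, _⟩ := h.1 0 (by norm_num)
  exact (abs_nonneg _).trans h1

lemma hdist_nonneg {f g : ℝ → ℝ} (hf : ContinuousOn f (Icc (-1 : ℝ) 1))
    (hg : ContinuousOn g (Icc (-1 : ℝ) 1)) : 0 ≤ hdist f g :=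
  ((hdist_le_iff hf hg _).mp le_rfl).nonneg

lemma Near.perturb {r ε : ℝ} {f g g' : ℝ → ℝ} (h : Near r f g)
    (hε : ∀ x ∈ Icc (-1 : ℝ) 1, |g x - g' x| ≤ ε) : Near (r + ε) f g' := by
  have h0 : 0 ≤ ε := (abs_nonneg _).trans (hε 0 (by norm_num))
  constructor
  · intro x hx
    obtain ⟨ξ, hξ, h1, h2⟩ := h.1 x hx
    refine ⟨ξ, hξ, by linarith, ?_⟩
    have := abs_sub_le (f x) (g ξ) (g' ξ)
    linarith [hε ξ hξ]
  · intro x hx
    obtain ⟨ξ, hξ, h1, h2⟩ := h.2 x hx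
    refine ⟨ξ, hξ, by linarith, ?_⟩
    have := abs_sub_le (f ξ) (g x) (g' x)
    linarith [hε x hx]

lemma Near.mono {r r' : ℝ} {f g : ℝ → ℝ} (h : Near r f g) (hr : r ≤ r') : Near r' f g := by
  have := h.perturb (g' := g) (ε := r' - r) (fun x _ => by simpa using hr)
  simpa using this

/-- the best approximation by `x ↦ q (ψ x)` with `deg q ≤ k` exists -/
lemma exists_best (f : ℝ → ℝ) (hf : ContinuousOn f (Icc (-1 : ℝ) 1)) (ψ : ℝ → ℝ)
    (hψ : Continuous ψ) (hinf : (ψ '' Icc (-1 : ℝ) 1).Infinite) (k : ℕ) :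
    ∃ q : ℝ[X], q.natDegree ≤ k ∧ ∀ q' : ℝ[X], q'.natDegree ≤ k →
      hdist f (fun x => q.eval (ψ x)) ≤ hdist f (fun x => q'.eval (ψ x)) := by
  let φ : Fin (k + 1) → C(Icc (-1 : ℝ) 1, ℝ) := fun i => ⟨fun x => ψ x ^ (i : ℕ), by fun_prop⟩
  let T : (Fin (k + 1) → ℝ) →ₗ[ℝ] C(Icc (-1 : ℝ) 1, ℝ) := Fintype.linearCombination ℝ φ
  let Q : (Fin (k + 1) → ℝ) → ℝ[X] := fun v => ∑ i : Fin (k + 1), monomial (i : ℕ) (v i)
  have hQdeg : ∀ v, (Q v).natDegree ≤ k := by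
    intro v
    refine natDegree_sum_le_of_forall_le _ _ fun i _ => (natDegree_monomial_le _).trans ?_
    exact Nat.lt_succ_iff.mp i.2
  have hQcoeff : ∀ v (i : Fin (k + 1)), (Q v).coeff i = v i := by
    intro v i
    simp only [Q, finsetSum_coeff, coeff_monomial]
    rw [Finset.sum_eq_single i]
    · simp
    · intro j _ hj
      rw [if_neg]; exact fun e => hj (Fin.ext e)
    · simp
  have hT : ∀ v (x : Icc (-1 : ℝ) 1), T v x = (Q v).eval (ψ x) := by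
    intro v x
    simp [T, Q, φ, Fintype.linearCombination_apply, eval_finsetSum]
  have hsurj : ∀ q : ℝ[X], q.natDegree ≤ k → ∃ v, Q v = q := by
    intro q hq
    refine ⟨fun i => q.coeff i, ?_⟩
    have := as_sum_range' q (k + 1) (Nat.lt_succ_of_le hq)
    rw [Finset.sum_range (fun i => monomial i (q.coeff i))] at this
    exact this.symm
  have hinj : LinearMap.ker T = ⊥ := by
    rw [LinearMap.ker_eq_bot']
    intro v hv
    have : Q v = 0 := by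
      refine eq_zero_of_infinite_isRoot _ (hinf.mono ?_)
      rintro _ ⟨x, hx, rfl⟩
      have := hT v ⟨x, hx⟩
      rw [hv] at this
      exact this.symm
    ext i
    rw [← hQcoeff v i, this]; simp
  obtain ⟨K, _, hK⟩ := T.exists_antilipschitzWith hinj
  have hTc : Continuous T := T.continuous_of_finiteDimensional
  have hcont : ∀ q : ℝ[X], ContinuousOn (fun x => q.eval (ψ x)) (Icc (-1 : ℝ) 1) :=
    fun q => (q.continuous.comp hψ).continuousOn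
  let Φ : (Fin (k + 1) → ℝ) → ℝ := fun v => hdist f (fun x => (Q v).eval (ψ x))
  have hΦ1 : ∀ v w, Φ w ≤ Φ v + dist (T v) (T w) := by
    intro v w
    refine (hdist_le_iff hf (hcont _) _).mpr
      (((hdist_le_iff hf (hcont _) _).mp le_rfl).perturb fun x hx => ?_)
    have := ContinuousMap.dist_apply_le_dist (f := T v) (g := T w) ⟨x, hx⟩
    rw [hT, hT, Real.dist_eq] at this
    exact this
  have hΦc : Continuous Φ := by
    rw [Metric.continuous_iff]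
    intro v ε hε
    obtain ⟨δ, hδ, h⟩ := Metric.continuous_iff.mp hTc v ε hε
    refine ⟨δ, hδ, fun w hw => ?_⟩
    have h1 := h w hw
    have h2 := hΦ1 v w
    have h3 := hΦ1 w v
    rw [dist_comm] at h2
    rw [Real.dist_eq, abs_lt]
    constructor <;> linarith
  obtain ⟨C, hC⟩ := isCompact_Icc.exists_bound_of_continuousOn hf
  have hbdd : Bornology.IsBounded {v | Φ v ≤ Φ 0} := by
    have : {v | Φ v ≤ Φ 0} ⊆ T ⁻¹' (Metric.closedBall 0 (C + Φ 0)) := by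
      intro v hv
      have hn : Near (Φ 0) f (fun x => (Q v).eval (ψ x)) := (hdist_le_iff hf (hcont _) _).mp hv
      have hC0 : 0 ≤ C := (norm_nonneg _).trans (hC 0 (by norm_num))
      simp only [mem_preimage, Metric.mem_closedBall, dist_zero_right]
      rw [ContinuousMap.norm_le _ (add_nonneg hC0 hn.nonneg)]
      intro x
      obtain ⟨ξ, hξ, _, h2⟩ := hn.2 x x.2
      rw [hT, Real.norm_eq_abs]
      have h3 := hC ξ hξ
      rw [Real.norm_eq_abs] at h3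
      rw [abs_le] at h2 h3 ⊢
      constructor <;> linarith [h2.1, h2.2, h3.1, h3.2]
    exact (hK.isBounded_preimage Metric.isBounded_closedBall).subset this
  obtain ⟨v, hv⟩ := hΦc.exists_forall_le_of_isBounded 0 hbdd
  refine ⟨Q v, hQdeg v, fun q' hq' => ?_⟩
  obtain ⟨w, rfl⟩ := hsurj q' hq'
  exact hv w

lemma bestApprox_le {f : ℝ → ℝ} (hf : ContinuousOn f (Icc (-1 : ℝ) 1)) {n : ℕ} (p : ℝ[X])
    (hp : p.natDegree ≤ n) : bestApprox n f ≤ hdist f (fun x => p.eval x) := by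
  refine csInf_le ⟨0, ?_⟩ ⟨p, hp, rfl⟩
  rintro _ ⟨q, _, rfl⟩
  exact hdist_nonneg hf q.continuous.continuousOn

lemma exists_bestApprox {f : ℝ → ℝ} (hf : ContinuousOn f (Icc (-1 : ℝ) 1)) (n : ℕ) :
    ∃ p : ℝ[X], p.natDegree ≤ n ∧ bestApprox n f = hdist f (fun x => p.eval x) := by
  obtain ⟨p, hp, h⟩ := exists_best f hf id continuous_id
    (by rw [image_id]; exact Icc_infinite (by norm_num)) n
  refine ⟨p, hp, le_antisymm (bestApprox_le hf p hp) ?_⟩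
  refine le_csInf ⟨_, p, hp, rfl⟩ ?_
  rintro _ ⟨q, hq, rfl⟩
  exact h q hq

end Pool.Agent.MP_170294_an.H84
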